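import Pool.Agent.Helper35.HSF.StE

/-! # Project HSF, module ALK: algebra of the second fundamental form and its derivative -/

set_option autoImplicit false

namespace Helper2.HSF

open Helper35.HSF Helper35.MS Helper35.PI Helper35.PI2 Helper32.CL
open scoped ContDiff Manifold Topology ENNReal BigOperators
open MeasureTheory Set Filter

private theorem tr_conj {n : ℕ} (U : Matrix.unitaryGroup (Fin n) ℝ) (X : Matrix (Fin n) (Fin n) ℝ) :
    (Unitary.conjStarAlgAut ℝ (Matrix (Fin n) (Fin n) ℝ) U X).trace = X.trace := by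
  rw [Unitary.conjStarAlgAut_apply, Matrix.trace_mul_cycle]
  have : star (U : Matrix (Fin n) (Fin n) ℝ) * (U : Matrix (Fin n) (Fin n) ℝ) = 1 :=
    Unitary.coe_star_mul_self U
  rw [this, one_mul]

private theorem eig {n : ℕ} (K : Fin n → Fin n → ℝ) (hK : SymS K) (c : ℝ)
    (hc : ∀ v : Fin n → ℝ, c * (∑ i, v i ^ 2) ≤ ∑ i, ∑ j, K i j * (v i * v j)) :
    ∃ κ : Fin n → ℝ, (∀ a, c ≤ κ a) ∧ ∑ a, κ a = ∑ i, K i i ∧
      ∑ a, κ a ^ 2 = ∑ i, ∑ j, K i j ^ 2 ∧
      ∑ a, κ a ^ 3 = ∑ i, ∑ j, ∑ k, K i j * K j k * K k i := by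
  classical
  set A : Matrix (Fin n) (Fin n) ℝ := Matrix.of K with hAdef
  have hA : A.IsHermitian := by
    ext i j
    simp only [Matrix.conjTranspose_apply, hAdef, Matrix.of_apply, star_trivial]
    exact hK j i
  have hsp := hA.spectral_theorem
  set D : Matrix (Fin n) (Fin n) ℝ := Matrix.diagonal hA.eigenvalues with hD
  have hsp' : A = Unitary.conjStarAlgAut ℝ (Matrix (Fin n) (Fin n) ℝ) hA.eigenvectorUnitary D := by
    exact hsp
  refine ⟨hA.eigenvalues, ?_, ?_, ?_, ?_⟩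
  · intro a
    have h1 := hA.eigenvalues_eq a
    have h2 := hc (fun i => (hA.eigenvectorBasis a) i)
    have h3 : ∑ i, ((hA.eigenvectorBasis a) i) ^ 2 = 1 := by
      have := (hA.eigenvectorBasis).orthonormal.1 a
      rw [EuclideanSpace.norm_eq, Real.sqrt_eq_one] at this
      simpa using this
    rw [h3, mul_one] at h2
    rw [h1]
    refine h2.trans (le_of_eq ?_)
    simp only [dotProduct, Matrix.mulVec, hAdef, Matrix.of_apply, Finset.mul_sum]
    simp
    refine Finset.sum_congr rfl fun i _ => Finset.sum_congr rfl fun j _ => ?_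
    ring
  · have h1 : A.trace = D.trace := by
      conv_lhs => rw [hsp']
      exact tr_conj _ _
    simp only [Matrix.trace, hD, Matrix.diag_apply, Matrix.diagonal_apply_eq, hAdef,
      Matrix.of_apply] at h1
    exact h1.symm
  · have h1 : (A * A).trace = (D * D).trace := by
      conv_lhs => rw [hsp', ← map_mul]
      exact tr_conj _ _
    have h2 : (D * D).trace = ∑ a, hA.eigenvalues a ^ 2 := by
      rw [hD, Matrix.diagonal_mul_diagonal, Matrix.trace_diagonal]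
      exact Finset.sum_congr rfl fun a _ => by ring
    have h3 : (A * A).trace = ∑ i, ∑ j, K i j ^ 2 := by
      simp only [Matrix.trace, Matrix.diag_apply, Matrix.mul_apply, hAdef, Matrix.of_apply]
      refine Finset.sum_congr rfl fun i _ => Finset.sum_congr rfl fun j _ => ?_
      rw [hK j i]
      ring
    rw [← h2, ← h1, h3]
  · have h1 : (A * A * A).trace = (D * D * D).trace := by
      conv_lhs => rw [hsp', ← map_mul, ← map_mul]
      exact tr_conj _ _
    have h2 : (D * D * D).trace = ∑ a, hA.eigenvalues a ^ 3 := by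
      rw [hD, Matrix.diagonal_mul_diagonal, Matrix.diagonal_mul_diagonal, Matrix.trace_diagonal]
      exact Finset.sum_congr rfl fun a _ => by ring
    have h3 : (A * A * A).trace = ∑ i, ∑ j, ∑ k, K i j * K j k * K k i := by
      simp only [Matrix.trace, Matrix.diag_apply, Matrix.mul_apply, hAdef, Matrix.of_apply,
        Finset.sum_mul]
      refine Finset.sum_congr rfl fun i _ => ?_
      rw [Finset.sum_comm]
    rw [← h2, ← h1, h3]


private theorem cs_sum {ι : Type} (s : Finset ι) (f g : ι → ℝ) :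
    (∑ i ∈ s, f i * g i) ^ 2 ≤ (∑ i ∈ s, f i ^ 2) * ∑ i ∈ s, g i ^ 2 :=
  Finset.sum_mul_sq_le_sq_mul_sq s f g

private theorem part3 {n : ℕ} (κ : Fin n → ℝ) (c : ℝ) (hc0 : 0 ≤ c) (hc : ∀ a, c ≤ κ a) :
    c ^ 2 * (n * (∑ a, κ a ^ 2) - (∑ a, κ a) ^ 2) ≤
      (∑ a, κ a) * (∑ a, κ a ^ 3) - (∑ a, κ a ^ 2) ^ 2 := by
  have e1 : ∑ a, ∑ b, κ a * κ b * (κ a - κ b) ^ 2 =
      2 * ((∑ a, κ a) * (∑ a, κ a ^ 3) - (∑ a, κ a ^ 2) ^ 2) := by
    have h1 : ∑ a, ∑ b, κ a * κ b * (κ a - κ b) ^ 2 =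
        ∑ a, ∑ b, (κ a ^ 3 * κ b + κ a * κ b ^ 3 - 2 * (κ a ^ 2 * κ b ^ 2)) :=
      Finset.sum_congr rfl fun a _ => Finset.sum_congr rfl fun b _ => by ring
    rw [h1]
    simp only [Finset.sum_sub_distrib, Finset.sum_add_distrib, ← Finset.mul_sum]
    simp only [← Finset.sum_mul]
    ring
  have e2 : ∑ a : Fin n, ∑ b : Fin n, (κ a - κ b) ^ 2 =
      2 * (n * (∑ a, κ a ^ 2) - (∑ a, κ a) ^ 2) := by
    have h1 : ∑ a : Fin n, ∑ b : Fin n, (κ a - κ b) ^ 2 =
        ∑ a : Fin n, ∑ b : Fin n, (κ a ^ 2 + κ b ^ 2 - 2 * (κ a * κ b)) :=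
      Finset.sum_congr rfl fun a _ => Finset.sum_congr rfl fun b _ => by ring
    rw [h1]
    simp only [Finset.sum_sub_distrib, Finset.sum_add_distrib, ← Finset.mul_sum,
      Finset.sum_const, Finset.card_univ, Fintype.card_fin, nsmul_eq_mul, ← Finset.sum_mul]
    ring
  have e3 : c ^ 2 * ∑ a : Fin n, ∑ b : Fin n, (κ a - κ b) ^ 2 ≤
      ∑ a, ∑ b, κ a * κ b * (κ a - κ b) ^ 2 := by
    rw [Finset.mul_sum]
    refine Finset.sum_le_sum fun a _ => ?_
    rw [Finset.mul_sum]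
    refine Finset.sum_le_sum fun b _ => mul_le_mul_of_nonneg_right ?_ (sq_nonneg _)
    rw [pow_two]
    exact mul_le_mul (hc a) (hc b) hc0 (hc0.trans (hc a))
  rw [e1, e2] at e3
  linarith

private theorem low {n : ℕ} (K : Fin n → Fin n → ℝ) (c : ℝ) (hc0 : 0 ≤ c)
    (hc : ∀ v : Fin n → ℝ, c * (∑ i, v i ^ 2) ≤ ∑ i, ∑ j, K i j * (v i * v j))
    (w : Fin n → ℝ) : c ^ 2 * ∑ m, w m ^ 2 ≤ ∑ l, (∑ m, K l m * w m) ^ 2 := by
  have h1 := hc w
  have h2 : ∑ i, ∑ j, K i j * (w i * w j) = ∑ i, w i * ∑ j, K i j * w j := by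
    refine Finset.sum_congr rfl fun i _ => ?_
    rw [Finset.mul_sum]
    exact Finset.sum_congr rfl fun j _ => by ring
  have h3 := cs_sum Finset.univ w (fun i => ∑ j, K i j * w j)
  rw [h2] at h1
  set P := ∑ i, w i ^ 2 with hP
  set Q := ∑ l, (∑ m, K l m * w m) ^ 2 with hQ
  have hP0 : 0 ≤ P := Finset.sum_nonneg fun i _ => sq_nonneg _
  have hQ0 : 0 ≤ Q := Finset.sum_nonneg fun i _ => sq_nonneg _
  have h4 : (c * P) ^ 2 ≤ P * Q :=
    (pow_le_pow_left₀ (mul_nonneg hc0 hP0) h1 2).trans h3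
  rcases hP0.eq_or_lt with h | h
  · rw [← h, mul_zero]
    exact hQ0
  · have h5 : P * (c ^ 2 * P) ≤ P * Q := by
      calc P * (c ^ 2 * P) = (c * P) ^ 2 := by ring
        _ ≤ P * Q := h4
    exact le_of_mul_le_mul_left h5 h

private theorem wsum {n : ℕ} (τ : Fin n → ℝ) (i k : Fin n) :
    ∑ m : Fin n, (τ i * (if m = k then 1 else 0) - τ k * (if m = i then 1 else 0)) ^ 2 =
      τ i ^ 2 + τ k ^ 2 - 2 * (if i = k then τ i * τ k else 0) := by
  have h1 : ∀ m : Fin n,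
      (τ i * (if m = k then (1 : ℝ) else 0) - τ k * (if m = i then 1 else 0)) ^ 2 =
      (if m = k then τ i ^ 2 else 0) + (if m = i then τ k ^ 2 else 0)
        - 2 * (if m = k then (if m = i then τ i * τ k else 0) else 0) := by
    intro m
    split_ifs <;> ring
  simp only [h1, Finset.sum_sub_distrib, Finset.sum_add_distrib, ← Finset.mul_sum,
    Finset.sum_ite_eq', Finset.mem_univ, if_true]
  congr 2
  by_cases h : i = k
  · subst h
    simp
  · rw [if_neg h, if_neg (Ne.symm h)]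

private theorem ksum {n : ℕ} (K : Fin n → Fin n → ℝ) (hK : SymS K) (τ : Fin n → ℝ)
    (i k l : Fin n) :
    ∑ m : Fin n, K l m * (τ i * (if m = k then 1 else 0) - τ k * (if m = i then 1 else 0)) =
      τ i * K k l - τ k * K i l := by
  have h1 : ∀ m : Fin n,
      K l m * (τ i * (if m = k then (1 : ℝ) else 0) - τ k * (if m = i then 1 else 0)) =
      (if m = k then τ i * K l m else 0) - (if m = i then τ k * K l m else 0) := by
    intro m
    split_ifs <;> ring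
  simp only [h1, Finset.sum_sub_distrib, Finset.sum_ite_eq', Finset.mem_univ, if_true]
  rw [hK l k, hK l i]

private theorem part4a {n : ℕ} (hn : 2 ≤ n) (K : Fin n → Fin n → ℝ) (hK : SymS K) (c : ℝ)
    (hc0 : 0 ≤ c)
    (hc : ∀ v : Fin n → ℝ, c * (∑ i, v i ^ 2) ≤ ∑ i, ∑ j, K i j * (v i * v j))
    (τ : Fin n → ℝ) :
    2 * c ^ 2 * (∑ k, τ k ^ 2) ≤
      ∑ i, ∑ k, ∑ l, (τ i * K k l - τ k * K i l) ^ 2 := by
  have h1 : ∀ i k, c ^ 2 * (τ i ^ 2 + τ k ^ 2 - 2 * (if i = k then τ i * τ k else 0)) ≤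
      ∑ l, (τ i * K k l - τ k * K i l) ^ 2 := by
    intro i k
    have h := low K c hc0 hc
      (fun m => τ i * (if m = k then 1 else 0) - τ k * (if m = i then 1 else 0))
    simp only [wsum, ksum K hK] at h
    exact h
  have h2 : ∑ i : Fin n, ∑ k : Fin n,
      c ^ 2 * (τ i ^ 2 + τ k ^ 2 - 2 * (if i = k then τ i * τ k else 0)) =
      c ^ 2 * (2 * (n - 1) * ∑ k, τ k ^ 2) := by
    simp only [← Finset.mul_sum, Finset.sum_sub_distrib, Finset.sum_add_distrib,
      Finset.sum_const, Finset.card_univ, Fintype.card_fin, nsmul_eq_mul,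
      Finset.sum_ite_eq, Finset.mem_univ, if_true]
    have h3 : ∑ i, τ i * τ i = ∑ i, τ i ^ 2 := Finset.sum_congr rfl fun i _ => by ring
    rw [h3]
    ring
  have h3 : ∑ i : Fin n, ∑ k : Fin n,
      c ^ 2 * (τ i ^ 2 + τ k ^ 2 - 2 * (if i = k then τ i * τ k else 0)) ≤
      ∑ i, ∑ k, ∑ l, (τ i * K k l - τ k * K i l) ^ 2 :=
    Finset.sum_le_sum fun i _ => Finset.sum_le_sum fun k _ => h1 i k
  rw [h2] at h3
  refine le_trans ?_ h3
  have hn' : (2 : ℝ) ≤ n := by exact_mod_cast hn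
  have ht : 0 ≤ ∑ k, τ k ^ 2 := Finset.sum_nonneg fun i _ => sq_nonneg _
  have h4 : 2 * (∑ k, τ k ^ 2) ≤ 2 * ((n : ℝ) - 1) * ∑ k, τ k ^ 2 :=
    mul_le_mul_of_nonneg_right (by linarith) ht
  calc 2 * c ^ 2 * (∑ k, τ k ^ 2) = c ^ 2 * (2 * ∑ k, τ k ^ 2) := by ring
    _ ≤ c ^ 2 * (2 * ((n : ℝ) - 1) * ∑ k, τ k ^ 2) :=
      mul_le_mul_of_nonneg_left h4 (sq_nonneg c)

private theorem part4b {n : ℕ} (K : Fin n → Fin n → ℝ)
    (T : Fin n → Fin n → Fin n → ℝ) (hT : Sym3S T) (H : ℝ) (τ : Fin n → ℝ) :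
    ∑ i, ∑ k, ∑ l, (τ i * K k l - τ k * K i l) ^ 2 ≤
      4 * ∑ i, ∑ k, ∑ l, (τ i * K k l - H * T i k l) ^ 2 := by
  have h1 : ∑ i, ∑ k, ∑ l, (τ i * K k l - τ k * K i l) ^ 2 ≤
      ∑ i, ∑ k, ∑ l, (2 * (τ i * K k l - H * T i k l) ^ 2 +
        2 * (τ k * K i l - H * T k i l) ^ 2) := by
    refine Finset.sum_le_sum fun i _ => Finset.sum_le_sum fun k _ =>
      Finset.sum_le_sum fun l _ => ?_
    have h := hT.1 i k l
    rw [← h]
    nlinarith [sq_nonneg ((τ i * K k l - H * T i k l) + (τ k * K i l - H * T i k l))]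
  refine h1.trans (le_of_eq ?_)
  simp only [Finset.sum_add_distrib, ← Finset.mul_sum]
  have h2 : ∑ i, ∑ k, ∑ l, (τ k * K i l - H * T k i l) ^ 2 =
      ∑ i, ∑ k, ∑ l, (τ i * K k l - H * T i k l) ^ 2 := Finset.sum_comm
  rw [h2]
  ring

private theorem part4c {n : ℕ} (K : Fin n → Fin n → ℝ)
    (T : Fin n → Fin n → Fin n → ℝ) (H : ℝ) (τ : Fin n → ℝ) :
    ∑ i, ∑ k, ∑ l, (τ i * K k l - H * T i k l) ^ 2 =
      (∑ k, τ k ^ 2) * (∑ i, ∑ j, K i j ^ 2)
        - 2 * H * (∑ i, τ i * ∑ k, ∑ l, K k l * T i k l)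
        + H ^ 2 * ∑ i, ∑ j, ∑ k, T i j k ^ 2 := by
  have h1 : ∑ i, ∑ k, ∑ l, (τ i * K k l - H * T i k l) ^ 2 =
      ∑ i, ∑ k, ∑ l, (τ i ^ 2 * K k l ^ 2 - 2 * H * (τ i * (K k l * T i k l))
        + H ^ 2 * T i k l ^ 2) :=
    Finset.sum_congr rfl fun i _ => Finset.sum_congr rfl fun k _ =>
      Finset.sum_congr rfl fun l _ => by ring
  rw [h1]
  simp only [Finset.sum_add_distrib, Finset.sum_sub_distrib, ← Finset.mul_sum]
  rw [← Finset.sum_mul]

private theorem kron1 {n : ℕ} (f : Fin n → Fin n → ℝ) :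
    ∑ i, ∑ j, f i j * (if i = j then 1 else 0) = ∑ i, f i i := by
  refine Finset.sum_congr rfl fun i _ => ?_
  simp

private theorem cs2 {n : ℕ} (f g : Fin n → Fin n → ℝ) :
    (∑ i, ∑ j, f i j * g i j) ^ 2 ≤ (∑ i, ∑ j, f i j ^ 2) * ∑ i, ∑ j, g i j ^ 2 := by
  have h := cs_sum (Finset.univ ×ˢ Finset.univ) (fun x : Fin n × Fin n => f x.1 x.2)
    (fun x => g x.1 x.2)
  rw [Finset.sum_product' (f := fun i j => f i j * g i j),
    Finset.sum_product' (f := fun i j => f i j ^ 2),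
    Finset.sum_product' (f := fun i j => g i j ^ 2)] at h
  exact h

theorem hALK : StALK := by
  intro n hn K T ε H θ G τ gθ S hK hT hH hθ hτ hG hgθ hS
  have hn0 : (n : ℝ) ≠ 0 := by
    have : (2 : ℝ) ≤ n := by exact_mod_cast hn
    linarith
  -- traceless parts
  set d : Fin n → Fin n → ℝ := fun i j => if i = j then 1 else 0 with hd
  have dd : ∑ i : Fin n, ∑ j : Fin n, d i j ^ 2 = n := by
    have : ∀ i j : Fin n, d i j ^ 2 = 1 * (if i = j then 1 else 0) := by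
      intro i j
      simp only [hd]
      split_ifs <;> ring
    simp only [this]
    rw [kron1 fun _ _ => 1]
    simp
  have θ1 : θ = ∑ i, ∑ j, (K i j - H / n * d i j) ^ 2 := by
    have h1 : ∑ i, ∑ j, (K i j - H / n * d i j) ^ 2 =
        ∑ i, ∑ j, (K i j ^ 2 - 2 * (H / n) * (K i j * d i j) + (H / n) ^ 2 * d i j ^ 2) :=
      Finset.sum_congr rfl fun i _ => Finset.sum_congr rfl fun j _ => by ring
    rw [h1]
    simp only [Finset.sum_add_distrib, Finset.sum_sub_distrib, ← Finset.mul_sum]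
    rw [dd, kron1 K, ← hH, hθ]
    field_simp
    ring
  have τ1 : ∀ k, ∑ i, ∑ j, T i j k * d i j = τ k := by
    intro k
    rw [kron1 fun i j => T i j k, hτ]
  have G1 : G = ∑ k, ∑ i, ∑ j, (T i j k - τ k / n * d i j) ^ 2 := by
    have h1 : ∑ k, ∑ i, ∑ j, (T i j k - τ k / n * d i j) ^ 2 =
        ∑ k, ((∑ i, ∑ j, T i j k ^ 2) - τ k ^ 2 / n) := by
      refine Finset.sum_congr rfl fun k _ => ?_
      have h2 : ∑ i, ∑ j, (T i j k - τ k / n * d i j) ^ 2 =
          ∑ i, ∑ j, (T i j k ^ 2 - 2 * (τ k / n) * (T i j k * d i j)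
            + (τ k / n) ^ 2 * d i j ^ 2) :=
        Finset.sum_congr rfl fun i _ => Finset.sum_congr rfl fun j _ => by ring
      rw [h2]
      simp only [Finset.sum_add_distrib, Finset.sum_sub_distrib, ← Finset.mul_sum]
      rw [dd, τ1]
      field_simp
      ring
    rw [h1, Finset.sum_sub_distrib, ← Finset.sum_div, hG]
    congr 1
    rw [Finset.sum_comm]
    symm
    calc ∑ y, ∑ x, ∑ x_1, T x x_1 y ^ 2 = ∑ x, ∑ y, ∑ x_1, T x x_1 y ^ 2 := Finset.sum_comm
      _ = ∑ y, ∑ x, ∑ x_1, T x y x_1 ^ 2 := by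
        rw [Finset.sum_comm (γ := Fin n)]
        refine Finset.sum_comm.trans ?_
        exact Finset.sum_comm.trans (Finset.sum_congr rfl fun i _ => Finset.sum_comm) |>.symm
  have θ0 : 0 ≤ θ := by
    rw [θ1]
    exact Finset.sum_nonneg fun i _ => Finset.sum_nonneg fun j _ => sq_nonneg _
  have G0 : 0 ≤ G := by
    rw [G1]
    exact Finset.sum_nonneg fun k _ => Finset.sum_nonneg fun i _ =>
      Finset.sum_nonneg fun j _ => sq_nonneg _
  have g1 : ∀ k, gθ k = 2 * ∑ i, ∑ j, (K i j - H / n * d i j) * (T i j k - τ k / n * d i j) := by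
    intro k
    have h1 : ∑ i, ∑ j, (K i j - H / n * d i j) * (T i j k - τ k / n * d i j) =
        ∑ i, ∑ j, (K i j * T i j k - τ k / n * (K i j * d i j) - H / n * (T i j k * d i j)
          + H / n * (τ k / n) * d i j ^ 2) :=
      Finset.sum_congr rfl fun i _ => Finset.sum_congr rfl fun j _ => by ring
    rw [h1]
    simp only [Finset.sum_add_distrib, Finset.sum_sub_distrib, ← Finset.mul_sum]
    rw [dd, τ1, kron1 K, ← hH, hgθ]
    field_simp
    ring
  have S1 : ∀ k, S k = ∑ l, (K k l - H / n * d k l) * τ l := by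
    intro k
    have h1 : ∑ l, (K k l - H / n * d k l) * τ l =
        ∑ l, (K k l * τ l - H / n * (if k = l then τ l else 0)) := by
      refine Finset.sum_congr rfl fun l _ => ?_
      simp only [hd]
      split_ifs <;> ring
    rw [h1, Finset.sum_sub_distrib, ← Finset.mul_sum, Finset.sum_ite_eq, if_pos (Finset.mem_univ k),
      hS]
    ring
  refine ⟨θ0, G0, ?_, ?_, ?_⟩
  · have h1 : ∀ k, gθ k ^ 2 ≤ 4 * θ * ∑ i, ∑ j, (T i j k - τ k / n * d i j) ^ 2 := by
      intro k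
      rw [g1 k, mul_pow, θ1]
      have h := cs2 (fun i j => K i j - H / n * d i j) (fun i j => T i j k - τ k / n * d i j)
      linarith
    refine (Finset.sum_le_sum fun k _ => h1 k).trans (le_of_eq ?_)
    rw [← Finset.mul_sum, ← G1]
  · have h1 : ∀ k, S k ^ 2 ≤ (∑ l, (K k l - H / n * d k l) ^ 2) * ∑ l, τ l ^ 2 := by
      intro k
      rw [S1 k]
      exact cs_sum Finset.univ _ _
    refine (Finset.sum_le_sum fun k _ => h1 k).trans (le_of_eq ?_)
    rw [← Finset.sum_mul, ← θ1]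
  · intro hH0 hε hKv
    have hc0 : 0 ≤ ε * H := mul_nonneg hε hH0.le
    have hH2 : 0 < H ^ 2 := by positivity
    constructor
    · obtain ⟨κ, k1, k2, k3, k4⟩ := eig K hK (ε * H) hKv
      have h := part3 κ (ε * H) hc0 k1
      rw [k2, k3, k4, ← hH] at h
      refine le_trans (le_of_eq ?_) h
      rw [hθ]
      field_simp
    · have a1 := part4a hn K hK (ε * H) hc0 hKv τ
      have a2 := part4b K T hT H τ
      have a3 := part4c K T H τ
      have a4 : ∀ i, ∑ k, ∑ l, K k l * T i k l = gθ i / 2 + H * τ i / n := by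
        intro i
        have h1 : ∑ k, ∑ l, K k l * T i k l = ∑ k, ∑ l, K k l * T k l i :=
          Finset.sum_congr rfl fun k _ => Finset.sum_congr rfl fun l _ => by
            rw [hT.1 i k l, hT.2 k i l]
        rw [h1, hgθ]
        ring
      have a5 : ∑ i, τ i * ∑ k, ∑ l, K k l * T i k l =
          (∑ k, gθ k * τ k) / 2 + H / n * ∑ k, τ k ^ 2 := by
        have h1 : ∑ i, τ i * ∑ k, ∑ l, K k l * T i k l =
            ∑ i, (gθ i * τ i / 2 + H / n * τ i ^ 2) :=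
          Finset.sum_congr rfl fun i _ => by rw [a4 i]; ring
        rw [h1, Finset.sum_add_distrib, ← Finset.sum_div, ← Finset.mul_sum]
      rw [a5] at a3
      set t2 := ∑ k, τ k ^ 2 with ht2
      set X := ∑ k, gθ k * τ k with hX
      have a6 : ∑ i, ∑ j, K i j ^ 2 = θ + H ^ 2 / n := by rw [hθ]; ring
      have a7 : ∑ i, ∑ j, ∑ k, T i j k ^ 2 = G + t2 / n := by rw [hG]; ring
      rw [a6, a7] at a3
      have a8 : t2 * (θ + H ^ 2 / n) - 2 * H * (X / 2 + H / n * t2) + H ^ 2 * (G + t2 / n) =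
          H ^ 2 * (G - X / H + θ * t2 / H ^ 2) := by
        field_simp
        ring
      rw [a8] at a3
      rw [a3] at a2
      have a9 : H ^ 2 * (ε ^ 2 / 2 * t2) ≤ H ^ 2 * (G - X / H + θ * t2 / H ^ 2) := by
        have := a1.trans a2
        rw [mul_pow] at this
        linarith
      exact le_of_mul_le_mul_left a9 hH2

end Helper2.HSF
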