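import Pool.Agent.Helper35.HSF.StC

/-! # Project HSF, module DIA: a hypersurface inside a ball which touches it -/

set_option autoImplicit false

namespace Helper2.HSF

open Helper35.HSF Helper35.MS Helper35.PI Helper35.PI2 Helper32.CL
open scoped ContDiff Manifold Topology ENNReal BigOperators
open MeasureTheory Set Filter

section

variable {V : Type} [NormedAddCommGroup V] [InnerProductSpace ℝ V]

private theorem one (X N A : V) (ρ q₀ : ℝ) (hq : 0 < q₀) (hX : ‖X‖ = ρ)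
    (hXN : (inner ℝ X N : ℝ) = 0) (hA : ‖A‖ = ρ)
    (h : A ≠ X → q₀ ≤ 2 * inner ℝ (A - X) N / ‖A - X‖ ^ 2) :
    ρ ^ 2 ≤ (inner ℝ A (X + (1 / q₀) • N) : ℝ) := by
  have e1 : ‖A - X‖ ^ 2 = 2 * ρ ^ 2 - 2 * inner ℝ A X := by
    rw [norm_sub_sq_real, hA, hX]
    ring
  have e2 : (inner ℝ (A - X) N : ℝ) = inner ℝ A N := by
    rw [inner_sub_left, hXN, sub_zero]
  have e3 : q₀ * ‖A - X‖ ^ 2 ≤ 2 * inner ℝ A N := by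
    by_cases hAX : A = X
    · rw [hAX, sub_self, norm_zero, hXN]
      simp
    · have h1 := h hAX
      have h2 : 0 < ‖A - X‖ ^ 2 := by
        have : 0 < ‖A - X‖ := norm_pos_iff.mpr (sub_ne_zero.mpr hAX)
        positivity
      rw [le_div_iff₀ h2, e2] at h1
      exact h1
  rw [inner_add_right, real_inner_smul_right]
  rw [e1] at e3
  have e4 : ρ ^ 2 - inner ℝ A X ≤ 1 / q₀ * inner ℝ A N := by
    rw [one_div, inv_mul_eq_div, le_div_iff₀ hq]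
    linarith
  linarith

private theorem two (p A B : V) (ρ q₀ : ℝ) (hρ : 0 < ρ) (hq : 0 < q₀)
    (hp : ‖p‖ ^ 2 = ρ ^ 2 + 1 / q₀ ^ 2) (hA : ‖A‖ = ρ) (hB : ‖B‖ = ρ)
    (hAp : ρ ^ 2 ≤ (inner ℝ A p : ℝ)) (hBp : ρ ^ 2 ≤ (inner ℝ B p : ℝ)) :
    ‖A - B‖ ^ 2 * (1 + ρ ^ 2 * q₀ ^ 2) ≤ 4 * ρ ^ 2 ∧
      (1 < ρ * q₀ → 0 < (inner ℝ A B : ℝ)) := by
  have e1 : ‖A - B‖ ^ 2 = 2 * ρ ^ 2 - 2 * inner ℝ A B := by
    rw [norm_sub_sq_real, hA, hB]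
    ring
  have e2 : ‖A + B‖ ^ 2 = 2 * ρ ^ 2 + 2 * inner ℝ A B := by
    rw [norm_add_sq_real, hA, hB]
    ring
  have e3 : (inner ℝ (A + B) p : ℝ) = inner ℝ A p + inner ℝ B p := inner_add_left _ _ _
  have e4 : (inner ℝ (A + B) p : ℝ) ≤ ‖A + B‖ * ‖p‖ := real_inner_le_norm _ _
  have e5 : (2 * ρ ^ 2) ^ 2 ≤ (‖A + B‖ * ‖p‖) ^ 2 :=
    pow_le_pow_left₀ (by positivity) (by linarith) 2
  rw [mul_pow ‖A + B‖, hp] at e5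
  have hq2 : 0 < q₀ ^ 2 := by positivity
  have e6 : (2 * ρ ^ 2) ^ 2 * q₀ ^ 2 ≤ ‖A + B‖ ^ 2 * (ρ ^ 2 * q₀ ^ 2 + 1) := by
    have h := mul_le_mul_of_nonneg_right e5 hq2.le
    have e : ‖A + B‖ ^ 2 * (ρ ^ 2 + 1 / q₀ ^ 2) * q₀ ^ 2 =
        ‖A + B‖ ^ 2 * (ρ ^ 2 * q₀ ^ 2 + 1) := by
      field_simp
    rw [e] at h
    exact h
  have e7 : ‖A + B‖ ^ 2 = 4 * ρ ^ 2 - ‖A - B‖ ^ 2 := by
    rw [e1, e2]
    ring
  have key : ‖A - B‖ ^ 2 * (1 + ρ ^ 2 * q₀ ^ 2) ≤ 4 * ρ ^ 2 := by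
    rw [e7] at e6
    have e8 : (2 * ρ ^ 2) ^ 2 * q₀ ^ 2 = 4 * ρ ^ 2 * (ρ ^ 2 * q₀ ^ 2) := by ring
    rw [e8] at e6
    linarith
  refine ⟨key, fun h1 => ?_⟩
  have h2 : 1 < ρ ^ 2 * q₀ ^ 2 := by
    have : (1 : ℝ) < (ρ * q₀) ^ 2 := one_lt_pow₀ h1 two_ne_zero
    rwa [mul_pow] at this
  rw [e1] at key
  by_contra hc
  have h3 : (inner ℝ A B : ℝ) ≤ 0 := not_lt.mp hc
  have h4 : 2 * ρ ^ 2 * (1 + ρ ^ 2 * q₀ ^ 2) ≤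
      (2 * ρ ^ 2 - 2 * inner ℝ A B) * (1 + ρ ^ 2 * q₀ ^ 2) :=
    mul_le_mul_of_nonneg_right (by linarith) (by positivity)
  have h5 : 2 * ρ ^ 2 * 2 < 2 * ρ ^ 2 * (1 + ρ ^ 2 * q₀ ^ 2) :=
    mul_lt_mul_of_pos_left (by linarith) (by positivity)
  linarith

end

theorem hDIA : StDIA := by
  intro n M _ _ ρ t F ν h x₀ q₀ hq hz
  have h1 : ∀ y, ρ ^ 2 ≤ (inner ℝ (F y t) (F x₀ t + (1 / q₀) • ν x₀ t) : ℝ) := fun y =>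
    one (F x₀ t) (ν x₀ t) (F y t) ρ q₀ hq (h.nF x₀) (h.Fν x₀) (h.nF y) (fun hy => hz y hy)
  have hp : ‖F x₀ t + (1 / q₀) • ν x₀ t‖ ^ 2 = ρ ^ 2 + 1 / q₀ ^ 2 := by
    rw [norm_add_sq_real, real_inner_smul_right, h.Fν x₀, h.nF x₀, norm_smul, h.nν x₀,
      Real.norm_of_nonneg (by positivity)]
    ring
  exact ⟨fun y y' => two _ (F y t) (F y' t) ρ q₀ h.ρ0 hq hp (h.nF y) (h.nF y') (h1 y) (h1 y'),
    h1⟩

end Helper2.HSF
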