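import Pool.Agent.Helper35.HSF.StC

/-! # Project HSF, module HTR: calculus rules for the gradient and the heat operator -/

set_option autoImplicit false

namespace Helper2.HSF

open Helper35.HSF Helper35.MS Helper35.PI Helper35.PI2 Helper32.CL
open scoped ContDiff Manifold Topology ENNReal BigOperators
open MeasureTheory Set Filter

private theorem da {n : ℕ} {M : Type} [TopologicalSpace M] [ChartedSpace (EE n) M]
    [IsManifold (𝓡 n) ∞ M] {E : Type} [NormedAddCommGroup E] [NormedSpace ℝ E]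
    {f : M → E} (hf : ContMDiff (𝓡 n) 𝓘(ℝ, E) 1 f) (q : M) :
    DifferentiableAt ℝ (fun y => f ((chartAt (EE n) q).symm y)) (chartAt (EE n) q q) := by
  have h1 : ContMDiffOn (𝓡 n) (𝓡 n) ∞ (chartAt (EE n) q).symm (chartAt (EE n) q).target :=
    contMDiffOn_chart_symm
  have h2 : ContMDiffAt (𝓡 n) (𝓡 n) ∞ (chartAt (EE n) q).symm (chartAt (EE n) q q) :=
    h1.contMDiffAt ((chartAt (EE n) q).open_target.mem_nhds
      ((chartAt (EE n) q).map_source (mem_chart_source (EE n) q)))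
  have h3 : ContMDiffAt (𝓡 n) 𝓘(ℝ, E) 1 (f ∘ (chartAt (EE n) q).symm) (chartAt (EE n) q q) :=
    hf.contMDiffAt.comp _ (h2.of_le (by exact_mod_cast le_top))
  exact (contMDiffAt_iff_contDiffAt.1 h3).differentiableAt one_ne_zero

private theorem gd_lin {n N : ℕ} {M : Type} [TopologicalSpace M] [ChartedSpace (EE n) M]
    [IsManifold (𝓡 n) ∞ M] (F : M → ℝ → EE N) (t : ℝ) (u v : M → ℝ) (a b : ℝ)
    (hu : ContMDiff (𝓡 n) 𝓘(ℝ, ℝ) 1 u) (hv : ContMDiff (𝓡 n) 𝓘(ℝ, ℝ) 1 v) (q : M) :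
    gdM n F t (fun q => a * u q + b * v q) q = a • gdM n F t u q + b • gdM n F t v q := by
  have hd : fderiv ℝ (fun y => a * u ((chartAt (EE n) q).symm y) +
      b * v ((chartAt (EE n) q).symm y)) (chartAt (EE n) q q) =
      a • fderiv ℝ (fun y => u ((chartAt (EE n) q).symm y)) (chartAt (EE n) q q) +
      b • fderiv ℝ (fun y => v ((chartAt (EE n) q).symm y)) (chartAt (EE n) q q) := by
    have e1 := ((da hu q).hasFDerivAt.const_mul a).add ((da hv q).hasFDerivAt.const_mul b)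
    exact e1.fderiv
  unfold gdM
  simp only [hd]
  simp only [Finset.smul_sum, ← Finset.sum_add_distrib]
  refine Finset.sum_congr rfl fun k _ => Finset.sum_congr rfl fun m _ => ?_
  simp only [_root_.add_apply, _root_.smul_apply, smul_eq_mul]
  rw [smul_smul, smul_smul, ← add_smul]
  congr 1
  ring

private theorem dv_lin {n N : ℕ} {M : Type} [TopologicalSpace M] [ChartedSpace (EE n) M]
    [IsManifold (𝓡 n) ∞ M] (F : M → ℝ → EE N) (t : ℝ) (X Y : M → EE N) (a b : ℝ)
    (hX : ContMDiff (𝓡 n) 𝓘(ℝ, EE N) 1 X) (hY : ContMDiff (𝓡 n) 𝓘(ℝ, EE N) 1 Y) (q : M) :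
    dvg (n := n) F (fun q => a • X q + b • Y q) q t = a * dvg (n := n) F X q t +
      b * dvg (n := n) F Y q t := by
  have hd : fderiv ℝ (fun y => a • X ((chartAt (EE n) q).symm y) +
      b • Y ((chartAt (EE n) q).symm y)) (chartAt (EE n) q q) =
      a • fderiv ℝ (fun y => X ((chartAt (EE n) q).symm y)) (chartAt (EE n) q q) +
      b • fderiv ℝ (fun y => Y ((chartAt (EE n) q).symm y)) (chartAt (EE n) q q) := by
    have e1 := ((da hX q).hasFDerivAt.const_smul a).add ((da hY q).hasFDerivAt.const_smul b)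
    exact e1.fderiv
  unfold dvg
  simp only [hd]
  simp only [Finset.mul_sum, ← Finset.sum_add_distrib]
  refine Finset.sum_congr rfl fun k _ => Finset.sum_congr rfl fun m _ => ?_
  simp only [_root_.add_apply, _root_.smul_apply]
  rw [inner_add_left, real_inner_smul_left, real_inner_smul_left]
  ring

private theorem dv_add {n N : ℕ} {M : Type} [TopologicalSpace M] [ChartedSpace (EE n) M]
    [IsManifold (𝓡 n) ∞ M] (F : M → ℝ → EE N) (t : ℝ) (X Y : M → EE N)
    (hX : ContMDiff (𝓡 n) 𝓘(ℝ, EE N) 1 X) (hY : ContMDiff (𝓡 n) 𝓘(ℝ, EE N) 1 Y) (q : M) :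
    dvg (n := n) F (fun q => X q + Y q) q t = dvg (n := n) F X q t +
      dvg (n := n) F Y q t := by
  have h := dv_lin F t X Y 1 1 hX hY q
  simp only [one_smul, one_mul] at h
  exact h

private theorem cst {n N : ℕ} {M : Type} [TopologicalSpace M] [ChartedSpace (EE n) M]
    (F : M → ℝ → EE N) (t c : ℝ) (q : M) : gdM n F t (fun _ : M => c) q = 0 := by
  unfold gdM
  simp

private theorem dv_zero {n N : ℕ} {M : Type} [TopologicalSpace M] [ChartedSpace (EE n) M]
    (F : M → ℝ → EE N) (t : ℝ) (q : M) :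
    dvg (n := n) F (fun _ : M => (0 : EE N)) q t = 0 := by
  unfold dvg
  simp

section

variable {n N : ℕ} {M : Type} [TopologicalSpace M] [ChartedSpace (EE n) M]
    [IsManifold (𝓡 n) ∞ M] {J : Set ℝ} {F : M → ℝ → EE N}

private theorem le1 : (1 : WithTop ℕ∞) ≤ (∞ : WithTop ℕ∞) := by exact_mod_cast le_top

private theorem p_mul (hSMR : StSMR) (hPRJ : StPRJ) (hF : IsImmJ (n := n) J F)
    (u v : M → ℝ → ℝ) (hu : SmJ n J u) (hv : SmJ n J v) :
    SmJ n J (fun q t => u q t * v q t) ∧ ∀ q, ∀ t ∈ J,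
      gdM n F t (fun q => u q t * v q t) q
        = u q t • gdM n F t (fun q => v q t) q + v q t • gdM n F t (fun q => u q t) q ∧
      htN n F (fun q t => u q t * v q t) q t = u q t * htN n F v q t + v q t * htN n F u q t
        - 2 * inner ℝ (gdM n F t (fun q => u q t) q) (gdM n F t (fun q => v q t) q) := by
  obtain ⟨su, -, -, du, -⟩ := hSMR n N M J F hF u hu
  obtain ⟨sv, -, -, dv, -⟩ := hSMR n N M J F hF v hv
  refine ⟨?_, fun q t ht => ?_⟩
  · have h : ContMDiff 𝓘(ℝ, ℝ × ℝ) 𝓘(ℝ, ℝ) ∞ (fun p : ℝ × ℝ => p.1 * p.2) :=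
      (contDiff_fst.mul contDiff_snd).contMDiff
    exact h.comp_contMDiffOn (hu.prodMk_space hv)
  have P := hPRJ n N M J F hF t ht
  have u1 := (su t ht).1.of_le le1
  have v1 := (sv t ht).1.of_le le1
  have gu1 := (su t ht).2.of_le le1
  have gv1 := (sv t ht).2.of_le le1
  have hg := P.2.2.1 (fun q => u q t) (fun q => v q t) u1 v1
  refine ⟨hg q, ?_⟩
  have hd : deriv (fun s => u q s * v q s) t =
      deriv (fun s => u q s) t * v q t + u q t * deriv (fun s => v q s) t :=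
    ((du q t ht).mul (dv q t ht)).deriv
  have e1 := P.1 (fun q => u q t) u1 (gdM n F t (fun q => v q t)) gv1 q
  have e2 := P.1 (fun q => v q t) v1 (gdM n F t (fun q => u q t)) gu1 q
  have e3 := dv_add F t (fun q => u q t • gdM n F t (fun q => v q t) q)
    (fun q => v q t • gdM n F t (fun q => u q t) q) (u1.smul gv1) (v1.smul gu1) q
  have hgeq : gdM n F t (fun q => u q t * v q t) =
      fun q => u q t • gdM n F t (fun q => v q t) q + v q t • gdM n F t (fun q => u q t) q :=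
    funext hg
  unfold htN lapN
  rw [hd, hgeq, e3, e1, e2,
    real_inner_comm (gdM n F t (fun q => u q t) q) (gdM n F t (fun q => v q t) q)]
  ring

private theorem p_lin (hSMR : StSMR) (hF : IsImmJ (n := n) J F)
    (u v : M → ℝ → ℝ) (hu : SmJ n J u) (hv : SmJ n J v) (a b : ℝ) :
    SmJ n J (fun q t => a * u q t + b * v q t) ∧ ∀ q, ∀ t ∈ J,
      gdM n F t (fun q => a * u q t + b * v q t) q
        = a • gdM n F t (fun q => u q t) q + b • gdM n F t (fun q => v q t) q ∧
      htN n F (fun q t => a * u q t + b * v q t) q t = a * htN n F u q t + b * htN n F v q t := by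
  obtain ⟨su, -, -, du, -⟩ := hSMR n N M J F hF u hu
  obtain ⟨sv, -, -, dv, -⟩ := hSMR n N M J F hF v hv
  refine ⟨?_, fun q t ht => ?_⟩
  · have h : ContMDiff 𝓘(ℝ, ℝ × ℝ) 𝓘(ℝ, ℝ) ∞ (fun p : ℝ × ℝ => a * p.1 + b * p.2) :=
      ((contDiff_const.mul contDiff_fst).add (contDiff_const.mul contDiff_snd)).contMDiff
    exact h.comp_contMDiffOn (hu.prodMk_space hv)
  have u1 := (su t ht).1.of_le le1
  have v1 := (sv t ht).1.of_le le1
  have gu1 := (su t ht).2.of_le le1
  have gv1 := (sv t ht).2.of_le le1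
  have hg : ∀ q, gdM n F t (fun q => a * u q t + b * v q t) q
        = a • gdM n F t (fun q => u q t) q + b • gdM n F t (fun q => v q t) q := fun q =>
    gd_lin F t (fun q => u q t) (fun q => v q t) a b u1 v1 q
  refine ⟨hg q, ?_⟩
  have hd : deriv (fun s => a * u q s + b * v q s) t =
      a * deriv (fun s => u q s) t + b * deriv (fun s => v q s) t :=
    (((du q t ht).const_mul a).add ((dv q t ht).const_mul b)).deriv
  have e3 := dv_lin F t (gdM n F t (fun q => u q t)) (gdM n F t (fun q => v q t)) a b gu1 gv1 q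
  have hgeq : gdM n F t (fun q => a * u q t + b * v q t) =
      fun q => a • gdM n F t (fun q => u q t) q + b • gdM n F t (fun q => v q t) q :=
    funext hg
  unfold htN lapN
  rw [hd, hgeq, e3]
  ring

private theorem p_comp (hSMR : StSMR) (hPRJ : StPRJ) (hF : IsImmJ (n := n) J F)
    (u : M → ℝ → ℝ) (hu : SmJ n J u) (ψ : ℝ → ℝ) (hψ : ContDiff ℝ ∞ ψ) :
    SmJ n J (fun q t => ψ (u q t)) ∧ ∀ q, ∀ t ∈ J,
      gdM n F t (fun q => ψ (u q t)) q = deriv ψ (u q t) • gdM n F t (fun q => u q t) q ∧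
      htN n F (fun q t => ψ (u q t)) q t = deriv ψ (u q t) * htN n F u q t
        - deriv (deriv ψ) (u q t) * ‖gdM n F t (fun q => u q t) q‖ ^ 2 := by
  obtain ⟨su, -, -, du, -⟩ := hSMR n N M J F hF u hu
  refine ⟨hψ.contMDiff.comp_contMDiffOn hu, fun q t ht => ?_⟩
  have hψ1 : ContDiff ℝ 1 ψ := hψ.of_le le1
  have hdψ1 : ContDiff ℝ 1 (deriv ψ) := (contDiff_infty_iff_deriv.1 hψ).2.of_le le1
  have P := hPRJ n N M J F hF t ht
  have u1 := (su t ht).1.of_le le1
  have gu1 := (su t ht).2.of_le le1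
  have hg := P.2.2.2.1 (fun q => u q t) u1 ψ hψ1
  refine ⟨hg q, ?_⟩
  have hd : deriv (fun s => ψ (u q s)) t = deriv ψ (u q t) * deriv (fun s => u q s) t := by
    have h1 : HasDerivAt ψ (deriv ψ (u q t)) (u q t) :=
      (hψ1.differentiable one_ne_zero (u q t)).hasDerivAt
    exact (h1.comp t (du q t ht)).deriv
  have s1 : ContMDiff (𝓡 n) 𝓘(ℝ, ℝ) 1 (fun q => deriv ψ (u q t)) :=
    hdψ1.contMDiff.comp u1
  have e1 := P.1 (fun q => deriv ψ (u q t)) s1 (gdM n F t (fun q => u q t)) gu1 q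
  have e2 := P.2.2.2.1 (fun q => u q t) u1 (deriv ψ) hdψ1 q
  have hgeq : gdM n F t (fun q => ψ (u q t)) =
      fun q => deriv ψ (u q t) • gdM n F t (fun q => u q t) q :=
    funext hg
  unfold htN lapN
  rw [hd, hgeq, e1, e2, real_inner_smul_left, real_inner_self_eq_norm_sq]
  ring

omit [IsManifold (𝓡 n) ∞ M] in
private theorem p_time (a : ℝ → ℝ) (ha : ContDiffOn ℝ ∞ a J) :
    SmJ n J (fun (_ : M) t => a t) ∧ ∀ q : M, ∀ t ∈ J,
      gdM n F t (fun _ : M => a t) q = 0 ∧ htN n F (fun (_ : M) t => a t) q t = deriv a t := by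
  refine ⟨?_, fun q t _ => ?_⟩
  · exact ha.contMDiffOn.comp contMDiffOn_snd (fun z hz => hz.2)
  · refine ⟨cst F t (a t) q, ?_⟩
    have hgeq : gdM n F t (fun _ : M => a t) = fun _ => 0 := funext fun q => cst F t (a t) q
    unfold htN lapN
    rw [hgeq, dv_zero, sub_zero]

end

theorem hHTR (hSMR : StSMR) (hPRJ : StPRJ) : StHTR := by
  intro n N M _ _ _ J F hF u v hu hv
  exact ⟨p_mul hSMR hPRJ hF u v hu hv, fun a b => p_lin hSMR hF u v hu hv a b,
    fun ψ hψ => p_comp hSMR hPRJ hF u hu ψ hψ, fun a ha => p_time a ha⟩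

end Helper2.HSF
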