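import Pool.Agent.Helper35.HSF.StE

/-! # Project HSF, module PKN: the pointwise package -/

set_option autoImplicit false

namespace Helper2.HSF

open Helper35.HSF Helper35.MS Helper35.PI Helper35.PI2 Helper32.CL
open scoped ContDiff Manifold Topology ENNReal BigOperators
open MeasureTheory Set Filter

private theorem inf_ne : (∞ : WithTop ℕ∞) ≠ 0 := by simp

private theorem slice {n N : ℕ} {M : Type} [TopologicalSpace M] [ChartedSpace (EE n) M]
    [IsManifold (𝓡 n) ∞ M] {J : Set ℝ} {F : M → ℝ → EE N} (imm : IsImmJ (n := n) J F)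
    {t : ℝ} (ht : t ∈ J) (q : M) :
    ContDiffAt ℝ ∞ (loc (n := n) F q t) (chartAt (EE n) q q) := by
  have h0 : ContMDiffAt (𝓡 n) 𝓘(ℝ, EE N) ∞ (fun p => F p t) q := by
    have h1 : ContMDiffAt ((𝓡 n).prod 𝓘(ℝ, ℝ)) 𝓘(ℝ, EE N) ∞
        (fun z : M × ℝ => F z.1 z.2) (q, t) :=
      (imm.smooth (q, t) ⟨mem_univ _, ht⟩).contMDiffAt
        ((isOpen_univ.prod imm.op).mem_nhds ⟨mem_univ _, ht⟩)
    exact h1.comp q (contMDiffAt_id.prodMk contMDiffAt_const)
  have h1 : ContMDiffOn (𝓡 n) (𝓡 n) ∞ (chartAt (EE n) q).symm (chartAt (EE n) q).target :=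
    contMDiffOn_chart_symm
  have h2 : ContMDiffAt (𝓡 n) (𝓡 n) ∞ (chartAt (EE n) q).symm (chartAt (EE n) q q) :=
    h1.contMDiffAt ((chartAt (EE n) q).open_target.mem_nhds
      ((chartAt (EE n) q).map_source (mem_chart_source (EE n) q)))
  have h4 : ContMDiffAt (𝓡 n) 𝓘(ℝ, EE N) ∞ (fun p => F p t)
      ((chartAt (EE n) q).symm (chartAt (EE n) q q)) := by
    rw [(chartAt (EE n) q).left_inv (mem_chart_source (EE n) q)]
    exact h0
  have h3 : ContMDiffAt (𝓡 n) 𝓘(ℝ, EE N) ∞ ((fun p => F p t) ∘ (chartAt (EE n) q).symm)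
      (chartAt (EE n) q q) := h4.comp _ h2
  exact contMDiffAt_iff_contDiffAt.1 h3

/-- the graph chart is a smooth reparametrisation of the preferred chart -/
private theorem rep {n N : ℕ} {M : Type} [TopologicalSpace M] [ChartedSpace (EE n) M]
    (F : M → ℝ → EE N) (q : M) (t : ℝ) (L : EE n →ₗᵢ[ℝ] EE N)
    (u : EE n × ℝ → EE N) (θ : EE n × ℝ → M) (hc : GCh n F q t L u θ)
    (hs : ContDiffAt ℝ ∞ (loc (n := n) F q t) (chartAt (EE n) q q))
    (hLI : LI (loc (n := n) F q t) (chartAt (EE n) q q)) :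
    ∃ φ : EE n → EE n, ContDiffAt ℝ ∞ φ 0 ∧ φ 0 = chartAt (EE n) q q ∧
      grf (F q t) L u t =ᶠ[𝓝 0] fun x => loc (n := n) F q t (φ x) := by
  set f := loc (n := n) F q t with hfdef
  set y₀ := chartAt (EE n) q q with hy₀
  have hf0 : f y₀ = F q t := by
    show F ((chartAt (EE n) q).symm (chartAt (EE n) q q)) t = F q t
    rw [(chartAt (EE n) q).left_inv (mem_chart_source (EE n) q)]
  obtain ⟨A, hA⟩ : ∃ A : EE N →L[ℝ] EE n, ∀ w v, inner ℝ (A w) v = inner ℝ w (L v) :=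
    ⟨ContinuousLinearMap.adjoint L.toContinuousLinearMap, fun w v => by
      rw [ContinuousLinearMap.adjoint_inner_left]; rfl⟩
  have hAL : ∀ x, A (L x) = x := by
    intro x
    refine ext_inner_right ℝ fun v => ?_
    rw [hA, L.inner_map_map]
  have hfd : HasFDerivAt f (fderiv ℝ f y₀) y₀ := (hs.differentiableAt inf_ne).hasFDerivAt
  set f' := fderiv ℝ f y₀ with hf'
  have hsum : ∀ η : EE n, f' η = ∑ i, η i • dv1 f y₀ i := by
    intro η
    have h1 : η = ∑ i, η i • (ee i : EE n) := by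
      have := (EuclideanSpace.basisFun (Fin n) ℝ).sum_repr η
      simp only [EuclideanSpace.basisFun_repr, EuclideanSpace.basisFun_apply] at this
      exact this.symm
    conv_lhs => rw [h1]
    rw [map_sum]
    refine Finset.sum_congr rfl fun i _ => ?_
    rw [map_smul]
    rfl
  set Φ : EE n → EE n := fun y => A (f y - F q t) with hΦ
  set Φ' : EE n →L[ℝ] EE n := A.comp f' with hΦ'
  have hΦd : HasFDerivAt Φ Φ' y₀ := A.hasFDerivAt.comp y₀ (hfd.sub_const _)
  have hΦc : ContDiffAt ℝ ∞ Φ y₀ :=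
    A.contDiff.contDiffAt.comp y₀ (hs.sub contDiffAt_const)
  have hinj : Function.Injective (Φ' : EE n →ₗ[ℝ] EE n) := by
    rw [← LinearMap.ker_eq_bot, LinearMap.ker_eq_bot']
    intro η h
    have h1 : A (f' η) = 0 := h
    have h3 : f' η ∈ LinearMap.range L.toLinearMap := by
      rw [hc.rg, hsum η]
      exact Submodule.sum_mem _ fun i _ => Submodule.smul_mem _ _ (Submodule.subset_span ⟨i, rfl⟩)
    obtain ⟨ξ, hξ⟩ := h3
    have h4 : f' η = L ξ := hξ.symm
    rw [h4, hAL] at h1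
    rw [h1, map_zero, hsum η] at h4
    have h5 := (Fintype.linearIndependent_iff.1 hLI) (fun i => η i) h4
    ext i
    exact h5 i
  obtain ⟨e, he⟩ : ∃ e : (EE n) ≃L[ℝ] (EE n), (e : EE n →L[ℝ] EE n) = Φ' :=
    ⟨(LinearEquiv.ofInjectiveEndo (Φ' : EE n →ₗ[ℝ] EE n) hinj).toContinuousLinearEquiv,
      ContinuousLinearMap.ext fun _ => rfl⟩
  rw [← he] at hΦd
  have hΦ0 : Φ y₀ = 0 := by
    rw [hΦ]
    simp [hf0]
  set g := hΦc.localInverse hΦd inf_ne with hg
  have hgc : ContDiffAt ℝ ∞ g 0 := by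
    have := hΦc.to_localInverse hΦd inf_ne
    rw [hΦ0] at this
    exact this
  have hg0 : g 0 = y₀ := by
    have := hΦc.localInverse_apply_image hΦd inf_ne
    rw [hΦ0] at this
    exact this
  have hgl : ∀ᶠ y in 𝓝 y₀, g (Φ y) = y :=
    (hΦc.hasStrictFDerivAt' hΦd inf_ne).eventually_left_inverse
  have hin : Tendsto (fun x : EE n => (x, t)) (𝓝 0) (𝓝 ((0 : EE n), t)) :=
    (Continuous.prodMk_left t).tendsto 0
  have hθt : Tendsto (fun x : EE n => θ (x, t)) (𝓝 0) (𝓝 q) := by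
    have := hc.ct.tendsto.comp hin
    rw [hc.pt] at this
    exact this
  have hyt : Tendsto (fun x : EE n => chartAt (EE n) q (θ (x, t))) (𝓝 0) (𝓝 y₀) :=
    ((chartAt (EE n) q).continuousAt (mem_chart_source (EE n) q)).tendsto.comp hθt
  refine ⟨g, hgc, hg0, ?_⟩
  filter_upwards [hin.eventually hc.eq, hin.eventually hc.sol.perp, hyt.eventually hgl,
    hθt.eventually ((chartAt (EE n) q).open_source.mem_nhds (mem_chart_source (EE n) q))]
    with x h1 h2 h3 h4
  have h5 : f (chartAt (EE n) q (θ (x, t))) = grf (F q t) L u t x := by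
    rw [← h1]
    show F ((chartAt (EE n) q).symm (chartAt (EE n) q (θ (x, t)))) t = F (θ (x, t)) t
    rw [(chartAt (EE n) q).left_inv h4]
  have h6 : Φ (chartAt (EE n) q (θ (x, t))) = x := by
    show A (f (chartAt (EE n) q (θ (x, t))) - F q t) = x
    rw [h5]
    have h7 : grf (F q t) L u t x - F q t = L x + u (x, t) := by
      unfold grf
      abel
    have h8 : A (u (x, t)) = 0 := by
      refine ext_inner_right ℝ fun v => ?_
      rw [hA, h2 v, inner_zero_left]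
    rw [h7, map_add, hAL, h8, add_zero]
  rw [h6] at h3
  rw [h3, h5]

private theorem da {n : ℕ} {M : Type} [TopologicalSpace M] [ChartedSpace (EE n) M]
    [IsManifold (𝓡 n) ∞ M] {E : Type} [NormedAddCommGroup E] [NormedSpace ℝ E]
    {f : M → E} (hf : ContMDiff (𝓡 n) 𝓘(ℝ, E) 1 f) (q : M) :
    DifferentiableAt ℝ (fun y => f ((chartAt (EE n) q).symm y)) (chartAt (EE n) q q) := by
  have h1 : ContMDiffOn (𝓡 n) (𝓡 n) ∞ (chartAt (EE n) q).symm (chartAt (EE n) q).target :=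
    contMDiffOn_chart_symm
  have h2 : ContMDiffAt (𝓡 n) (𝓡 n) ∞ (chartAt (EE n) q).symm (chartAt (EE n) q q) :=
    h1.contMDiffAt ((chartAt (EE n) q).open_target.mem_nhds
      ((chartAt (EE n) q).map_source (mem_chart_source (EE n) q)))
  have h3 : ContMDiffAt (𝓡 n) 𝓘(ℝ, E) 1 (f ∘ (chartAt (EE n) q).symm) (chartAt (EE n) q q) :=
    hf.contMDiffAt.comp _ (h2.of_le (by exact_mod_cast le_top))
  exact (contMDiffAt_iff_contDiffAt.1 h3).differentiableAt one_ne_zero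

private theorem dv_lin {n N : ℕ} {M : Type} [TopologicalSpace M] [ChartedSpace (EE n) M]
    [IsManifold (𝓡 n) ∞ M] (F : M → ℝ → EE N) (t : ℝ) (X Y : M → EE N) (a b : ℝ)
    (hX : ContMDiff (𝓡 n) 𝓘(ℝ, EE N) 1 X) (hY : ContMDiff (𝓡 n) 𝓘(ℝ, EE N) 1 Y) (q : M) :
    dvg (n := n) F (fun q => a • X q + b • Y q) q t = a * dvg (n := n) F X q t +
      b * dvg (n := n) F Y q t := by
  have hd : fderiv ℝ (fun y => a • X ((chartAt (EE n) q).symm y) +
      b • Y ((chartAt (EE n) q).symm y)) (chartAt (EE n) q q) =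
      a • fderiv ℝ (fun y => X ((chartAt (EE n) q).symm y)) (chartAt (EE n) q q) +
      b • fderiv ℝ (fun y => Y ((chartAt (EE n) q).symm y)) (chartAt (EE n) q q) := by
    have e1 := ((da hX q).hasFDerivAt.const_smul a).add ((da hY q).hasFDerivAt.const_smul b)
    exact e1.fderiv
  unfold dvg
  simp only [hd]
  simp only [Finset.mul_sum, ← Finset.sum_add_distrib]
  refine Finset.sum_congr rfl fun k _ => Finset.sum_congr rfl fun m _ => ?_
  simp only [_root_.add_apply, _root_.smul_apply]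
  rw [inner_add_left, real_inner_smul_left, real_inner_smul_left]
  ring

private theorem cm_lin {n : ℕ} {M : Type} [TopologicalSpace M] [ChartedSpace (EE n) M]
    {E : Type} [NormedAddCommGroup E] [NormedSpace ℝ E] (a b : ℝ)
    {f g : M → E} (hf : ContMDiff (𝓡 n) 𝓘(ℝ, E) 1 f) (hg : ContMDiff (𝓡 n) 𝓘(ℝ, E) 1 g) :
    ContMDiff (𝓡 n) 𝓘(ℝ, E) 1 (fun q => a • f q + b • g q) := by
  have hL : ContDiff ℝ 1 (fun p : E × E => a • p.1 + b • p.2) :=
    (contDiff_fst.const_smul a).add (contDiff_snd.const_smul b)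
  exact hL.contMDiff.comp (hf.prodMk_space hg)

private theorem inner_L {n N : ℕ} (L : EE n →ₗᵢ[ℝ] EE N) (a b : Fin n → ℝ) :
    (inner ℝ (∑ k, a k • L (ee k)) (∑ k, b k • L (ee k)) : ℝ) = ∑ k, a k * b k := by
  have h0 : Orthonormal ℝ (fun k : Fin n => (ee k : EE n)) :=
    EuclideanSpace.orthonormal_single
  have h1 : Orthonormal ℝ (fun k : Fin n => L (ee k)) := h0.comp_linearIsometry L
  have h := h1.inner_sum a b Finset.univ
  simpa using h

private theorem norm_L {n N : ℕ} (L : EE n →ₗᵢ[ℝ] EE N) (a : Fin n → ℝ) :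
    ‖∑ k, a k • L (ee k)‖ ^ 2 = ∑ k, a k ^ 2 := by
  rw [← real_inner_self_eq_norm_sq, inner_L]
  exact Finset.sum_congr rfl fun k _ => (pow_two _).symm


section

variable {n N : ℕ} {M : Type} [TopologicalSpace M] [ChartedSpace (EE n) M]
    [IsManifold (𝓡 n) ∞ M] {J : Set ℝ} {F : M → ℝ → EE N}

private theorem lap_lin (hSMR : StSMR) (hHTR : StHTR) (imm : IsImmJ (n := n) J F)
    (u v : M → ℝ → ℝ) (hu : SmJ n J u) (hv : SmJ n J v) (a b : ℝ) (q : M) (t : ℝ) (ht : t ∈ J) :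
    lapN n F (fun q t => a * u q t + b * v q t) q t = a * lapN n F u q t + b * lapN n F v q t := by
  obtain ⟨-, -, -, du, -⟩ := hSMR n N M J F imm u hu
  obtain ⟨-, -, -, dv, -⟩ := hSMR n N M J F imm v hv
  have h := (((hHTR n N M J F imm u v hu hv).2.1 a b).2 q t ht).2
  have hd : deriv (fun s => a * u q s + b * v q s) t =
      a * deriv (fun s => u q s) t + b * deriv (fun s => v q s) t :=
    (((du q t ht).const_mul a).add ((dv q t ht).const_mul b)).deriv
  unfold htN at h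
  rw [hd] at h
  linarith

private theorem der_lin (hSMR : StSMR) (imm : IsImmJ (n := n) J F)
    (u v : M → ℝ → ℝ) (hu : SmJ n J u) (hv : SmJ n J v) (a b : ℝ) (q : M) (t : ℝ) (ht : t ∈ J) :
    deriv (fun s => a * u q s + b * v q s) t =
      a * deriv (fun s => u q s) t + b * deriv (fun s => v q s) t := by
  obtain ⟨-, -, -, du, -⟩ := hSMR n N M J F imm u hu
  obtain ⟨-, -, -, dv, -⟩ := hSMR n N M J F imm v hv
  exact (((du q t ht).const_mul a).add ((dv q t ht).const_mul b)).deriv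

omit [IsManifold (𝓡 n) ∞ M] in
/-- the field `Sd` as a combination of three fields -/
private theorem Sd_eq (F : M → ℝ → EE N) (t : ℝ) : Sd n F t = fun q =>
    (1 : ℝ) • ((1 / 4 : ℝ) • gdM n F t (fun q => 4 * AA (n := n) F q t
      + (-1) * ‖HH (n := n) F q t‖ ^ 2) q + (-(1 / 4) : ℝ) • VF n 1 F t q)
      + (-(1 / (2 * n)) : ℝ) • gdM n F t (fun q => ‖HH (n := n) F q t‖ ^ 2) q := by
  funext q
  unfold Sd
  have h1 : (fun q => 4 * AA (n := n) F q t + (-1) * ‖HH (n := n) F q t‖ ^ 2) =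
      fun q => 4 * AA (n := n) F q t - ‖HH (n := n) F q t‖ ^ 2 := by
    funext q
    ring
  rw [h1]
  module

end

/-- The facts about the flow at the point `(q,t)` in a graph chart. -/
private structure PtD (n : ℕ) {M : Type} [TopologicalSpace M] [ChartedSpace (EE n) M]
    (F ν : M → ℝ → EE (n + 2)) (q : M) (t : ℝ) (L : EE n →ₗᵢ[ℝ] EE (n + 2))
    (A : Fin n → Fin n → EE (n + 2)) (T : Fin n → Fin n → Fin n → EE (n + 2))
    (K : Fin n → Fin n → ℝ) : Prop where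
  LN : ∀ v, (inner ℝ (L v) (ν q t) : ℝ) = 0
  LF : ∀ v, (inner ℝ (L v) (F q t) : ℝ) = 0
  sK : SymS K
  sT : Sym3V T
  eA : ∀ i j, A i j = K i j • ν q t - (if i = j then 1 / rr n t else 0) • F q t
  eT : ∀ i j k, T i j k = (inner ℝ (T i j k) (ν q t) : ℝ) • ν q t
  eH : Hs n F ν q t = ∑ i, K i i
  eh : h2N n F q t = ∑ i, ∑ j, K i j ^ 2
  gA : gdM n F t (fun q => AA (n := n) F q t) q = ∑ k, gX A T k • L (ee k)
  hA : htN n F (AA (n := n) F) q t = hX A T
  gY' : gdM n F t (fun q => ‖HH (n := n) F q t‖ ^ 2) q = ∑ k, gY A T k • L (ee k)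
  hY' : htN n F (fun q t => ‖HH (n := n) F q t‖ ^ 2) q t = hY A T
  vf : VF n 1 F t q = ∑ k, vk 1 A T k • L (ee k)
  dv : deriv (fun s => 2 * AA (n := n) F q s + (-1) * ‖HH (n := n) F q s‖ ^ 2) t =
    dvg (n := n) F (VF n 1 F t) q t + 4 * hX A T - hY A T + 4 * eq2 T - 4 * AAH A
  gH : gdM n F t (fun q => Hs n F ν q t) q =
    ∑ k, (inner ℝ (et T k) (ν q t) : ℝ) • L (ee k)
  fr : ∀ U : Fin n → ℝ, ∃ c : Fin n → ℝ, gn F q t c = ∑ i, U i ^ 2 ∧
    hn F ν q t c = ∑ i, ∑ j, K i j * (U i * U j)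

private theorem pt (hGCH : StGCH) (hNUJ : StNUJ) (hEVF : StEVF) (hG1 : StG1) (hG2 : StG2)
    (hG7 : StG7) (hG8 : StG8) (hGV : StGV) (hGH : StGH) (hIB : StIB) (hMAJ : StMAJ)
    (hSMF : StSMF) (hHTR : StHTR) (hC1 : StC1) (hJA : StJA) (hJB : StJB)
    {n : ℕ} (hn2 : 2 ≤ n) {M : Type} [TopologicalSpace M] [ChartedSpace (EE n) M]
    [IsManifold (𝓡 n) ∞ M] {J : Set ℝ} {F ν : M → ℝ → EE (n + 2)} (hf : HFl n J F ν)
    (q : M) (t : ℝ) (ht : t ∈ J) :
    ∃ (L : EE n →ₗᵢ[ℝ] EE (n + 2)) (A : Fin n → Fin n → EE (n + 2))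
      (T : Fin n → Fin n → Fin n → EE (n + 2)) (K : Fin n → Fin n → ℝ),
      PtD n F ν q t L A T K := by
  have imm : IsImmJ (n := n) J F := hf.mcf.toIsImmJ
  obtain ⟨sF, sH, sA, sY, sθ, -⟩ := hSMF n (n + 2) M J F imm
  obtain ⟨sHs, -, hev⟩ := hEVF n (by omega) M J F ν hf
  have hLI : LI (loc (n := n) F q t) (chartAt (EE n) q q) := imm.imm q t ht
  obtain ⟨L, hL⟩ := hC1 n (n + 2) _ hLI
  obtain ⟨u, θ, hc, tr, trV⟩ := hGCH n (n + 2) M J F hf.mcf q t ht L hL
  have hm := (trV ν hf.sν).1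
  obtain ⟨n1, n2, n3, n4, n5, n6, n7, n8⟩ := hNUJ n M J F ν hf q t ht L u θ hc hm _ rfl
  obtain ⟨g1, g2, g3, g4⟩ := hG1 n (n + 2) (F q t) L u t hc.sol
  obtain ⟨x1, x2, x3, x4⟩ := hG7 n (n + 2) (F q t) L u t hc.sol _ _ rfl rfl
  obtain ⟨y1, y2, y3, y4⟩ := hG8 n (n + 2) (F q t) L u t hc.sol _ _ rfl rfl
  obtain ⟨v1, v2⟩ := hGV n (n + 2) (F q t) L u t hc.sol _ _ rfl rfl 1
  obtain ⟨h1, h2, h3, -, h5⟩ := hGH n (n + 2) (F q t) L u t hc.sol _ _ rfl rfl
  have hg2 := (hG2 n (n + 2) (F q t) L u t hc.sol).self_of_nhds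
  obtain ⟨φ, p1, p2, p3⟩ := rep F q t L u θ hc (slice imm ht q) hLI
  have hib := hIB n (n + 2) (loc (n := n) F q t) (grf (F q t) L u t) φ 0
    (by rw [p2]; exact slice imm ht q) p1 p3 hg2.2.2.2.2 1
  rw [p2] at hib
  have hmaj := hMAJ n (n + 2) M J F imm 1 t ht
  -- the functions in the chart
  have eX : (fun z : EE n × ℝ => AA (n := n) F (θ z) z.2) =ᶠ[𝓝 (0, t)] Xf (F q t) L u := by
    filter_upwards [hc.hH] with z hz
    exact hz.2.1
  have eY : (fun z : EE n × ℝ => ‖HH (n := n) F (θ z) z.2‖ ^ 2) =ᶠ[𝓝 (0, t)]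
      Yf (F q t) L u := by
    filter_upwards [hc.hH] with z hz
    show ‖HH (n := n) F (θ z) z.2‖ ^ 2 = ‖mcv (grf (F q t) L u z.2) z.1‖ ^ 2
    rw [hz.1]
  have JAr := hJA n ℝ ((0 : EE n), t)
  have jX := JAr.1 _ _ eX
  have jY := JAr.1 _ _ eY
  obtain ⟨-, -, a3, a4⟩ := tr (AA (n := n) F) sA
  obtain ⟨-, -, b3, b4⟩ := tr (fun q t => ‖HH (n := n) F q t‖ ^ 2) sY
  refine ⟨L, jgg u (0, t), jggg u (0, t),
    fun i j => inner ℝ (jgg u (0, t) i j) (ν q t), ?_⟩
  refine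
    { LN := fun v => (n1 v).1
      LF := fun v => (n1 v).2
      sK := n2
      sT := g2
      eA := n3
      eT := n4
      eH := n5
      eh := n6
      gA := ?_
      hA := ?_
      gY' := ?_
      hY' := ?_
      vf := ?_
      dv := ?_
      gH := ?_
      fr := ?_ }
  · rw [a4]
    exact Finset.sum_congr rfl fun k _ => by rw [jX.1 k, x3 k]
  · rw [← a3, jX.2.2.2, x4]
  · rw [b4]
    exact Finset.sum_congr rfl fun k _ => by rw [jY.1 k, y3 k]
  · rw [← b3, jY.2.2.2, y4]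
  · unfold VF
    rw [← hib.1]
    exact v1
  · have s2 : SmJ n J (fun q t => 2 * AA (n := n) F q t + (-1) * ‖HH (n := n) F q t‖ ^ 2) :=
      ((hHTR n (n + 2) M J F imm _ _ sA sY).2.1 2 (-1)).1
    obtain ⟨-, c2, -, -⟩ := tr _ s2
    have eZ : (fun z : EE n × ℝ => 2 * AA (n := n) F (θ z) z.2
        + (-1) * ‖HH (n := n) F (θ z) z.2‖ ^ 2) =ᶠ[𝓝 (0, t)]
        fun z => 2 * Xf (F q t) L u z - Yf (F q t) L u z := by
      filter_upwards [eX, eY] with z hz1 hz2
      rw [hz1, hz2]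
      ring
    have jZ := (JAr.1 _ _ eZ).2.1
    rw [← c2, jZ, v2, hib.2, ← hmaj.2.2.2 q]
    ring
  · obtain ⟨-, -, -, d4⟩ := tr (Hs n F ν) sHs
    have eW : (fun z : EE n × ℝ => Hs n F ν (θ z) z.2) =ᶠ[𝓝 (0, t)]
        fun z => (inner ℝ (Hf (F q t) L u z) (ν (θ z) z.2) : ℝ) := by
      filter_upwards [hc.hH] with z hz
      show (inner ℝ (HH (n := n) F (θ z) z.2) (ν (θ z) z.2) : ℝ) =
        inner ℝ (mcv (grf (F q t) L u z.2) z.1) (ν (θ z) z.2)
      rw [hz.1]
    have jW := (JAr.1 _ _ eW).1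
    have two_le : (2 : WithTop ℕ∞) ≤ (∞ : WithTop ℕ∞) := by norm_cast
    have jp := ((hJB n (n + 2) ((0 : EE n), t)).2 (Hf (F q t) L u) (fun z => ν (θ z) z.2)
      (h1.of_le two_le) (hm.of_le two_le)).1
    rw [d4]
    refine Finset.sum_congr rfl fun k _ => ?_
    rw [jW k, jp k, h3 k, n7 k]
    have e0 : ν (θ ((0 : EE n), t)) t = ν q t := by rw [hc.pt]
    have e1 : ∀ v : EE n, (inner ℝ (Hv (jgg u (0, t))) (L v) : ℝ) = 0 := by
      intro v
      unfold Hv
      rw [sum_inner]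
      exact Finset.sum_eq_zero fun i _ => g3 i i v
    congr 1
    show (inner ℝ (et (jggg u (0, t)) k - ∑ a, (inner ℝ (Hv (jgg u (0, t)))
      (jgg u (0, t) a k) : ℝ) • L (ee a)) (ν (θ ((0 : EE n), t)) t) : ℝ) +
      inner ℝ (Hf (F q t) L u (0, t)) _ = _
    rw [e0, h2, inner_sub_left, sum_inner, inner_neg_right, inner_sum]
    simp only [real_inner_smul_left, real_inner_smul_right, (n1 _).1, e1, mul_zero,
      Finset.sum_const_zero, sub_zero, neg_zero, add_zero]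
  · intro U
    obtain ⟨c, c1, c2⟩ := hc.fs.self_of_nhds U
    have e0 : θ ((0 : EE n), t) = q := hc.pt
    simp only [e0] at c1 c2
    have hd : ∀ i, dv1 (grf (F q t) L u t) 0 i = L (ee i) := by
      intro i
      have := hg2.1 i
      rw [hc.sol.du0 i, add_zero] at this
      exact this
    refine ⟨c, ?_, ?_⟩
    · unfold gn
      rw [c1]
      simp only [hd]
      exact norm_L L U
    · unfold hn
      rw [c2, sum_inner]
      refine Finset.sum_congr rfl fun i _ => ?_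
      rw [sum_inner]
      refine Finset.sum_congr rfl fun j _ => ?_
      have e3 : sff (grf (F q t) L u t) 0 i j = jgg u (0, t) i j := (h5 i j).2.1
      rw [real_inner_smul_left, e3]
      ring


private theorem quad {n : ℕ} {M : Type} [TopologicalSpace M] [ChartedSpace (EE n) M]
    {F ν : M → ℝ → EE (n + 2)} {q : M} {t : ℝ} {L : EE n →ₗᵢ[ℝ] EE (n + 2)}
    {A : Fin n → Fin n → EE (n + 2)} {T : Fin n → Fin n → Fin n → EE (n + 2)}
    {K : Fin n → Fin n → ℝ} (D : PtD n F ν q t L A T K) (e : ℝ)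
    (h : ∀ c : Fin n → ℝ, gn F q t c = 1 → e ≤ hn F ν q t c) (v : Fin n → ℝ) :
    e * (∑ i, v i ^ 2) ≤ ∑ i, ∑ j, K i j * (v i * v j) := by
  set s := ∑ i, v i ^ 2 with hs
  have hs0 : 0 ≤ s := Finset.sum_nonneg fun i _ => sq_nonneg _
  rcases hs0.eq_or_lt with h0 | h0
  · have hv : ∀ i, v i = 0 := by
      intro i
      have := (Finset.sum_eq_zero_iff_of_nonneg (fun i _ => sq_nonneg (v i))).mp h0.symm i
        (Finset.mem_univ i)
      exact pow_eq_zero_iff two_ne_zero |>.mp this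
    rw [← h0, mul_zero]
    refine le_of_eq (Finset.sum_eq_zero fun i _ => Finset.sum_eq_zero fun j _ => ?_).symm
    rw [hv i]
    ring
  · have hsq : Real.sqrt s * Real.sqrt s = s := Real.mul_self_sqrt hs0
    have hsq0 : Real.sqrt s ≠ 0 := by
      intro hh
      rw [hh] at hsq
      linarith
    obtain ⟨c, c1, c2⟩ := D.fr fun i => v i / Real.sqrt s
    have e1 : ∑ i, (v i / Real.sqrt s) ^ 2 = 1 := by
      have : ∀ i, (v i / Real.sqrt s) ^ 2 = v i ^ 2 / s := by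
        intro i
        rw [div_pow, Real.sq_sqrt hs0]
      simp only [this, ← Finset.sum_div]
      rw [← hs]
      exact div_self h0.ne'
    have e2 : ∑ i, ∑ j, K i j * (v i / Real.sqrt s * (v j / Real.sqrt s)) =
        (∑ i, ∑ j, K i j * (v i * v j)) / s := by
      rw [Finset.sum_div]
      refine Finset.sum_congr rfl fun i _ => ?_
      rw [Finset.sum_div]
      refine Finset.sum_congr rfl fun j _ => ?_
      rw [div_mul_div_comm, hsq]
      ring
    have e3 := h c (by rw [c1, e1])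
    rw [c2, e2, le_div_iff₀ h0] at e3
    exact e3

theorem hPKN (hALK : StALK) (hALQ : StALQ) (hGCH : StGCH) (hNUJ : StNUJ) (hEVF : StEVF)
    (hG1 : StG1) (hG2 : StG2) (hG7 : StG7) (hG8 : StG8) (hGV : StGV) (hGH : StGH) (hIB : StIB)
    (hMAJ : StMAJ) (hSMR : StSMR) (hSMF : StSMF) (hHTR : StHTR) (hC1 : StC1) (hJA : StJA)
    (hJB : StJB) : StPKN := by
  intro n hn2 M _ _ _ J F ν hf
  have imm : IsImmJ (n := n) J F := hf.mcf.toIsImmJ
  have le1 : (1 : WithTop ℕ∞) ≤ (∞ : WithTop ℕ∞) := by exact_mod_cast le_top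
  obtain ⟨sF, sH, sA, sY, sθ, -⟩ := hSMF n (n + 2) M J F imm
  have hlin := fun a b : ℝ => (hHTR n (n + 2) M J F imm _ _ sA sY).2.1 a b
  have s4 := (hlin 4 (-1)).1
  constructor
  · intro t ht
    obtain ⟨r4, -, -, -, -, -, -, o4⟩ := hSMR n (n + 2) M J F imm _ s4
    obtain ⟨rY, -, -, -, -, -, -, oY⟩ := hSMR n (n + 2) M J F imm _ sY
    have hmaj := hMAJ n (n + 2) M J F imm 1 t ht
    rw [Sd_eq]
    constructor
    · exact cm_lin 1 _ (cm_lin _ _ ((r4 t ht).2.of_le le1) hmaj.1) ((rY t ht).2.of_le le1)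
    · intro q
      simp only [inner_add_right, real_inner_smul_right]
      rw [(o4 t ht q).2, hmaj.2.1 q, (oY t ht q).2]
      ring
  intro q t ht
  obtain ⟨L, A, T, K, D⟩ := pt hGCH hNUJ hEVF hG1 hG2 hG7 hG8 hGV hGH hIB hMAJ hSMF hHTR
    hC1 hJA hJB hn2 hf q t ht
  obtain ⟨-, -, hev⟩ := hEVF n (by omega) M J F ν hf
  obtain ⟨-, ev2, ev3, ev4, -⟩ := hev q t ht
  have hn0 : (n : ℝ) ≠ 0 := by
    have : (2 : ℝ) ≤ n := by exact_mod_cast hn2
    linarith
  have hr0 : 0 < rr n t := hf.r0 t ht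
  have hr : 0 < 1 / rr n t := by positivity
  have hν : ‖ν q t‖ = 1 := hf.nν q t ht
  have hFν : (inner ℝ (F q t) (ν q t) : ℝ) = 0 := hf.Fν q t ht
  have hνF : (inner ℝ (ν q t) (F q t) : ℝ) = 0 := by rw [real_inner_comm]; exact hFν
  have hνν : (inner ℝ (ν q t) (ν q t) : ℝ) = 1 := by
    rw [real_inner_self_eq_norm_sq, hν, one_pow]
  have hFF : ‖F q t‖ ^ 2 = 1 / (1 / rr n t) := by
    rw [hf.sph q t ht, one_div_one_div]
  obtain ⟨-, a2, -, a4, a5, a6⟩ := hALQ n (n + 2) K (ν q t) (F q t) (1 / rr n t) (Hs n F ν q t) A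
    D.sK hν hνF hr hFF (by funext i j; exact D.eA i j) D.eH
  -- scalar jets
  set H := Hs n F ν q t with hH
  set Tk : Fin n → Fin n → Fin n → ℝ := fun i j k => inner ℝ (T i j k) (ν q t) with hTk
  have hT : ∀ i j k, T i j k = Tk i j k • ν q t := D.eT
  have sTk : Sym3S Tk := by
    constructor
    · intro i j k
      simp only [hTk]
      rw [D.sT.1 i j k]
    · intro i j k
      simp only [hTk]
      rw [D.sT.2 i j k]
  set τ : Fin n → ℝ := fun k => ∑ i, Tk i i k with hτ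
  have c2 : ∀ k, et T k = τ k • ν q t := by
    intro k
    unfold et
    rw [Finset.sum_congr rfl fun i _ => hT i i k, ← Finset.sum_smul]
  have c3 : ∀ k, (inner ℝ (et T k) (ν q t) : ℝ) = τ k := by
    intro k
    rw [c2 k, real_inner_smul_left, hνν, mul_one]
  have c4 : eq2 T = ∑ k, τ k ^ 2 := by
    unfold eq2
    refine Finset.sum_congr rfl fun k _ => ?_
    rw [c2 k, norm_smul, hν, mul_one, Real.norm_eq_abs, sq_abs]
  have c5 : ∑ i, ∑ j, ∑ k, ‖T i j k‖ ^ 2 = ∑ i, ∑ j, ∑ k, Tk i j k ^ 2 := by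
    refine Finset.sum_congr rfl fun i _ => Finset.sum_congr rfl fun j _ =>
      Finset.sum_congr rfl fun k _ => ?_
    rw [hT i j k, norm_smul, hν, mul_one, Real.norm_eq_abs, sq_abs]
  have c6 : ∀ k, gX A T k = 2 * ∑ i, ∑ j, K i j * Tk i j k := by
    intro k
    unfold gX
    congr 1
    refine Finset.sum_congr rfl fun i _ => Finset.sum_congr rfl fun j _ => ?_
    rw [hT i j k, D.eA i j, inner_sub_left, real_inner_smul_left, real_inner_smul_left,
      real_inner_smul_right, real_inner_smul_right, hνν, hFν]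
    ring
  have c7 : ∀ k, gY A T k = 2 * (H * τ k) := by
    intro k
    unfold gY
    rw [a2, c2 k, inner_sub_left, real_inner_smul_left, real_inner_smul_left,
      real_inner_smul_right, real_inner_smul_right, hνν, hFν]
    ring
  have c8 : ∀ k l, (inner ℝ (A k l) (et T l) : ℝ) = K k l * τ l := by
    intro k l
    rw [c2 l, D.eA k l, inner_sub_left, real_inner_smul_left, real_inner_smul_left,
      real_inner_smul_right, real_inner_smul_right, hνν, hFν]
    ring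
  have c9 : hX A T = -2 * (∑ i, ∑ j, ∑ k, Tk i j k ^ 2) + 2 * Sq A := by
    unfold hX
    rw [c5]
  have c10 : hY A T = -2 * (∑ k, τ k ^ 2) + 2 * ZZ A := by
    unfold hY
    have := c4
    unfold eq2 at this
    rw [this]
  -- gradients
  have hth : thN n F = fun q t => 1 * AA (n := n) F q t +
      (-(1 / (n : ℝ))) * ‖HH (n := n) F q t‖ ^ 2 := by
    funext q t
    unfold thN
    ring
  set gθ : Fin n → ℝ := fun k => 2 * (∑ i, ∑ j, K i j * Tk i j k) - 2 * H * τ k / n with hgθ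
  set S : Fin n → ℝ := fun k => (∑ l, K k l * τ l) - H * τ k / n with hS
  have d1 : gdM n F t (fun q => thN n F q t) q = ∑ k, gθ k • L (ee k) := by
    have h := ((hlin 1 (-(1 / (n : ℝ)))).2 q t ht).1
    rw [hth]
    refine h.trans ?_
    rw [D.gA, D.gY', Finset.smul_sum, Finset.smul_sum, ← Finset.sum_add_distrib]
    refine Finset.sum_congr rfl fun k _ => ?_
    rw [smul_smul, smul_smul, ← add_smul, c6 k, c7 k]
    congr 1
    simp only [hgθ]
    ring
  have d2 : gdM n F t (fun q => Hs n F ν q t) q = ∑ k, τ k • L (ee k) := by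
    rw [D.gH]
    exact Finset.sum_congr rfl fun k _ => by rw [c3 k]
  have d3 : Sd n F t q = ∑ k, S k • L (ee k) := by
    rw [Sd_eq]
    show (1 : ℝ) • ((1 / 4 : ℝ) • gdM n F t (fun q => 4 * AA (n := n) F q t
      + (-1) * ‖HH (n := n) F q t‖ ^ 2) q + (-(1 / 4) : ℝ) • VF n 1 F t q)
      + (-(1 / (2 * n)) : ℝ) • gdM n F t (fun q => ‖HH (n := n) F q t‖ ^ 2) q = _
    rw [((hlin 4 (-1)).2 q t ht).1, D.gA, D.gY', D.vf]
    simp only [Finset.smul_sum, smul_smul, ← Finset.sum_add_distrib, ← add_smul]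
    refine Finset.sum_congr rfl fun k _ => ?_
    congr 1
    have h8 : ∑ l, (inner ℝ (A k l) (et T l) : ℝ) = ∑ l, K k l * τ l :=
      Finset.sum_congr rfl fun l _ => c8 k l
    unfold vk
    rw [h8, c7 k]
    simp only [hS]
    field_simp
    ring
  -- norms
  have m2 : ‖gdM n F t (fun q => Hs n F ν q t) q‖ ^ 2 = ∑ k, τ k ^ 2 := by rw [d2, norm_L]
  have hθK : thN n F q t = (∑ i, ∑ j, K i j ^ 2) - H ^ 2 / n := by rw [ev3, D.eh]
  set G : ℝ := (∑ i, ∑ j, ∑ k, Tk i j k ^ 2) - (∑ k, τ k ^ 2) / n with hG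
  have alk := fun ε : ℝ => hALK n hn2 K Tk ε H (thN n F q t) G τ gθ S D.sK sTk D.eH hθK rfl rfl
    rfl rfl
  obtain ⟨b0, b1, b2, b3, -⟩ := alk 0
  refine ⟨G, AAH A - Sq A, b1, ?_, ?_, ?_, ?_, ?_⟩
  · have h := ((hlin 1 (-(1 / (n : ℝ)))).2 q t ht).2
    rw [← hth] at h
    rw [h, D.hA, D.hY', c9, c10, a4, a5, hθK, D.eh, hG]
    field_simp
    ring
  · have e1 := ((hlin 1 (-(1 / (n : ℝ)))).2 q t ht).2
    have l4 := lap_lin hSMR hHTR imm _ _ sA sY 4 (-1) q t ht
    have lθ := lap_lin hSMR hHTR imm _ _ sA sY 1 (-(1 / (n : ℝ))) q t ht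
    rw [← hth] at lθ
    have dl := der_lin hSMR imm _ _ sA sY 2 (-1) q t ht
    have f1 := D.dv
    rw [dl] at f1
    have f2 : deriv (fun s => AA (n := n) F q s) t - lapN n F (AA (n := n) F) q t = hX A T :=
      D.hA
    have f3 : deriv (fun s => ‖HH (n := n) F q s‖ ^ 2) t -
        lapN n F (fun q t => ‖HH (n := n) F q t‖ ^ 2) q t = hY A T := D.hY'
    obtain ⟨r4, -⟩ := hSMR n (n + 2) M J F imm _ s4
    obtain ⟨rY, -⟩ := hSMR n (n + 2) M J F imm _ sY
    have hmaj := hMAJ n (n + 2) M J F imm 1 t ht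
    have g1 : dvg (n := n) F (Sd n F t) q t =
        1 * (1 / 4 * lapN n F (fun q t => 4 * AA (n := n) F q t
          + (-1) * ‖HH (n := n) F q t‖ ^ 2) q t + (-(1 / 4)) * dvg (n := n) F (VF n 1 F t) q t)
          + (-(1 / (2 * n))) * lapN n F (fun q t => ‖HH (n := n) F q t‖ ^ 2) q t := by
      rw [Sd_eq, dv_lin F t _ _ _ _ (cm_lin _ _ ((r4 t ht).2.of_le le1) hmaj.1)
        ((rY t ht).2.of_le le1) q, dv_lin F t _ _ _ _ ((r4 t ht).2.of_le le1) hmaj.1 q]
      rfl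
    have f4 : deriv (fun s => AA (n := n) F q s) t =
        hX A T + lapN n F (AA (n := n) F) q t := by linarith
    have f5 : deriv (fun s => ‖HH (n := n) F q s‖ ^ 2) t =
        hY A T + lapN n F (fun q t => ‖HH (n := n) F q t‖ ^ 2) q t := by linarith
    have f6 : dvg (n := n) F (VF n 1 F t) q t =
        2 * lapN n F (AA (n := n) F) q t - lapN n F (fun q t => ‖HH (n := n) F q t‖ ^ 2) q t
          - 2 * hX A T - 4 * eq2 T + 4 * AAH A := by
      rw [f4, f5] at f1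
      linarith
    rw [g1, l4, f6, lθ, m2, c4, c9, hG]
    ring
  · rw [d3, norm_L, m2]
    exact b3
  · rw [d1, norm_L]
    exact b2
  · intro ε hε hH0 hK
    obtain ⟨-, -, -, -, k5⟩ := alk ε
    obtain ⟨k6, k7⟩ := k5 hH0 hε (quad D (ε * H) hK)
    constructor
    · rw [ev2, a5, a6]
      have h1 : 0 ≤ (n : ℝ) * (1 / rr n t) * thN n F q t :=
        mul_nonneg (mul_nonneg (Nat.cast_nonneg n) hr.le) ev4
      have h2 : (n : ℝ) * (1 / rr n t) * thN n F q t =
          n * (1 / rr n t) * (∑ i, ∑ j, K i j ^ 2) - (1 / rr n t) * H ^ 2 := by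
        rw [hθK]
        field_simp
      rw [h2] at h1
      linarith
    · rw [m2, d1, d2, inner_L, ev2]
      exact k7

end Helper2.HSF
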